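import Pool.Agent.Helper55.MEI.Mass2
import Pool.Agent.Helper75.MEI2.TentL

/-!
# Arc loads on the residual of the apex, exact contact coordinates

`P` is the matrix of the contact nodes, `mu P (vt t)` the contact coordinates of the direction
`t`, `ζ` (a bound of the positive parts of) the contact coordinates of the apex, `alP P ζ` the load
on the apex.  `arP P ζ l` is the load of the arc opposite to the coordinate `l`: the minimum of
the two other residual contact coordinates.  It lives in the chamber in which the load of the apex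
is determined by the coordinate `l`.
-/

set_option autoImplicit false

namespace Pool.Agent.Helper31.ARC

open Set MeasureTheory Matrix Pool.Agent.Helper55.Sx Pool.Agent.Helper55.Mass
open Helper75.MEI2 (vt Qf mu TC nn dd cc)
open Helper29.MEI (tent TD)

variable {P : Matrix (Fin 3) (Fin 3) ℝ} {ζ : Fin 3 → ℝ}

/-- the load of the apex -/
noncomputable def alP (P : Matrix (Fin 3) (Fin 3) ℝ) (ζ : Fin 3 → ℝ) (t : ℝ × ℝ) : ℝ :=
  if ∀ k, 0 ≤ mu P (vt t) k then
    min (mu P (vt t) 0 / ζ 0) (min (mu P (vt t) 1 / ζ 1) (mu P (vt t) 2 / ζ 2)) else 0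

/-- residual contact coordinates after the apex -/
noncomputable def rsP (P : Matrix (Fin 3) (Fin 3) ℝ) (ζ : Fin 3 → ℝ) (t : ℝ × ℝ) (k : Fin 3) : ℝ :=
  mu P (vt t) k - alP P ζ t * ζ k

/-- the load of the arc opposite to `l` -/
noncomputable def arP (P : Matrix (Fin 3) (Fin 3) ℝ) (ζ : Fin 3 → ℝ) (l : Fin 3) (t : ℝ × ℝ) : ℝ :=
  if ∀ k, 0 ≤ mu P (vt t) k then min (rsP P ζ t (l + 1)) (rsP P ζ t (l + 2)) else 0

theorem alP_zero {t : ℝ × ℝ} (h : ∃ k, mu P (vt t) k < 0) : alP P ζ t = 0 := by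
  obtain ⟨k, hk⟩ := h
  unfold alP
  rw [if_neg]
  intro h
  exact absurd (h k) (not_le.2 hk)

theorem arP_zero {t : ℝ × ℝ} (h : ∃ k, mu P (vt t) k < 0) (l : Fin 3) : arP P ζ l t = 0 := by
  obtain ⟨k, hk⟩ := h
  unfold arP
  rw [if_neg]
  intro h
  exact absurd (h k) (not_le.2 hk)

theorem alP_nonneg (hζ : ∀ k, 0 < ζ k) (t : ℝ × ℝ) : 0 ≤ alP P ζ t := by
  unfold alP
  split_ifs with h
  · exact le_min (div_nonneg (h 0) (hζ 0).le)
      (le_min (div_nonneg (h 1) (hζ 1).le) (div_nonneg (h 2) (hζ 2).le))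
  · exact le_rfl

theorem alP_zeta (hζ : ∀ k, 0 < ζ k) {t : ℝ × ℝ} (h : ∀ k, 0 ≤ mu P (vt t) k) (k : Fin 3) :
    alP P ζ t * ζ k ≤ mu P (vt t) k := by
  have hk : alP P ζ t ≤ mu P (vt t) k / ζ k := by
    unfold alP
    rw [if_pos h]
    fin_cases k
    · exact min_le_left _ _
    · exact (min_le_right _ _).trans (min_le_left _ _)
    · exact (min_le_right _ _).trans (min_le_right _ _)
  exact (le_div_iff₀ (hζ k)).1 hk

theorem rsP_nonneg (hζ : ∀ k, 0 < ζ k) {t : ℝ × ℝ} (h : ∀ k, 0 ≤ mu P (vt t) k) (k : Fin 3) :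
    0 ≤ rsP P ζ t k := by
  have := alP_zeta hζ h k
  unfold rsP
  linarith

theorem rsP_zero (hζ : ∀ k, 0 < ζ k) {t : ℝ × ℝ} (h : ∀ k, 0 ≤ mu P (vt t) k) :
    rsP P ζ t 0 = 0 ∨ rsP P ζ t 1 = 0 ∨ rsP P ζ t 2 = 0 := by
  have e : alP P ζ t = min (mu P (vt t) 0 / ζ 0)
      (min (mu P (vt t) 1 / ζ 1) (mu P (vt t) 2 / ζ 2)) := by
    unfold alP
    rw [if_pos h]
  rcases min_choice (mu P (vt t) 0 / ζ 0)
    (min (mu P (vt t) 1 / ζ 1) (mu P (vt t) 2 / ζ 2)) with h1 | h1
  · left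
    rw [h1] at e
    unfold rsP
    rw [e, div_mul_cancel₀ _ (hζ 0).ne', sub_self]
  · right
    rw [h1] at e
    rcases min_choice (mu P (vt t) 1 / ζ 1) (mu P (vt t) 2 / ζ 2) with h2 | h2
    · left
      rw [h2] at e
      unfold rsP
      rw [e, div_mul_cancel₀ _ (hζ 1).ne', sub_self]
    · right
      rw [h2] at e
      unfold rsP
      rw [e, div_mul_cancel₀ _ (hζ 2).ne', sub_self]

theorem arP_nonneg (hζ : ∀ k, 0 < ζ k) (l : Fin 3) (t : ℝ × ℝ) : 0 ≤ arP P ζ l t := by
  unfold arP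
  split_ifs with h
  · exact le_min (rsP_nonneg hζ h _) (rsP_nonneg hζ h _)
  · exact le_rfl

theorem arP_pair (hζ : ∀ k, 0 < ζ k) {t : ℝ × ℝ} (h : ∀ k, 0 ≤ mu P (vt t) k) :
    arP P ζ 1 t + arP P ζ 2 t ≤ rsP P ζ t 0 ∧ arP P ζ 0 t + arP P ζ 2 t ≤ rsP P ζ t 1 ∧
      arP P ζ 0 t + arP P ζ 1 t ≤ rsP P ζ t 2 := by
  have r0 := rsP_nonneg hζ h 0
  have r1 := rsP_nonneg hζ h 1
  have r2 := rsP_nonneg hζ h 2
  have e0 : arP P ζ 0 t = min (rsP P ζ t 1) (rsP P ζ t 2) := by
    unfold arP; rw [if_pos h]; rfl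
  have e1 : arP P ζ 1 t = min (rsP P ζ t 2) (rsP P ζ t 0) := by
    unfold arP; rw [if_pos h]; rfl
  have e2 : arP P ζ 2 t = min (rsP P ζ t 0) (rsP P ζ t 1) := by
    unfold arP; rw [if_pos h]; rfl
  have a1 := min_le_left (rsP P ζ t 1) (rsP P ζ t 2)
  have a2 := min_le_right (rsP P ζ t 1) (rsP P ζ t 2)
  have b1 := min_le_left (rsP P ζ t 2) (rsP P ζ t 0)
  have b2 := min_le_right (rsP P ζ t 2) (rsP P ζ t 0)
  have c1 := min_le_left (rsP P ζ t 0) (rsP P ζ t 1)
  have c2 := min_le_right (rsP P ζ t 0) (rsP P ζ t 1)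
  rw [e0, e1, e2]
  rcases rsP_zero hζ h with hz | hz | hz <;> refine ⟨?_, ?_, ?_⟩ <;> linarith

/-- **feasibility**: `m l` are the contact coordinates of the arc node `l` -/
theorem arcs_feas (hζ : ∀ k, 0 < ζ k) {m : Fin 3 → Fin 3 → ℝ} {ρ : ℝ} (hρ : 0 < ρ)
    (hml : ∀ l, m l l ≤ 0) (hmρ : ∀ l k, m l k ≤ ρ) {t : ℝ × ℝ}
    (h : ∀ k, 0 ≤ mu P (vt t) k) (k : Fin 3) :
    alP P ζ t * ζ k + (arP P ζ 0 t / ρ * m 0 k + arP P ζ 1 t / ρ * m 1 k +
      arP P ζ 2 t / ρ * m 2 k) ≤ mu P (vt t) k := by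
  have key : ∀ l k, arP P ζ l t / ρ * m l k ≤ arP P ζ l t := by
    intro l k
    have h0 := arP_nonneg (P := P) hζ l t
    calc arP P ζ l t / ρ * m l k ≤ arP P ζ l t / ρ * ρ :=
          mul_le_mul_of_nonneg_left (hmρ l k) (div_nonneg h0 hρ.le)
      _ = arP P ζ l t := div_mul_cancel₀ _ hρ.ne'
  have key0 : ∀ l, arP P ζ l t / ρ * m l l ≤ 0 := fun l =>
    mul_nonpos_of_nonneg_of_nonpos (div_nonneg (arP_nonneg (P := P) hζ l t) hρ.le) (hml l)
  obtain ⟨p0, p1, p2⟩ := arP_pair hζ h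
  unfold rsP at p0 p1 p2
  fin_cases k
  · simp only [Fin.zero_eta]
    have h1 := key 1 0
    have h2 := key 2 0
    have h3 := key0 0
    linarith
  · simp only [Fin.mk_one]
    have h1 := key 0 1
    have h2 := key 2 1
    have h3 := key0 1
    linarith
  · simp only [Fin.reduceFinMk]
    have h1 := key 0 2
    have h2 := key 1 2
    have h3 := key0 2
    linarith

theorem muP_meas (P : Matrix (Fin 3) (Fin 3) ℝ) (k : Fin 3) : Measurable fun t => mu P (vt t) k :=
  ((continuous_apply k).comp ((Helper75.MEI2.mu_cont P).comp Helper75.MEI2.vt_cont)).measurable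

theorem coneP_meas (P : Matrix (Fin 3) (Fin 3) ℝ) :
    MeasurableSet {t : ℝ × ℝ | ∀ k, 0 ≤ mu P (vt t) k} := by
  have : {t : ℝ × ℝ | ∀ k, 0 ≤ mu P (vt t) k} = ⋂ k, {t : ℝ × ℝ | 0 ≤ mu P (vt t) k} := by
    ext t
    simp
  rw [this]
  exact MeasurableSet.iInter fun k => measurableSet_le measurable_const (muP_meas P k)

theorem alP_meas : Measurable (alP P ζ) := by
  unfold alP
  exact Measurable.ite (coneP_meas P) (((muP_meas P 0).div_const _).min
    (((muP_meas P 1).div_const _).min ((muP_meas P 2).div_const _))) measurable_const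

theorem rsP_meas (k : Fin 3) : Measurable fun t => rsP P ζ t k := by
  unfold rsP
  exact (muP_meas P k).sub (alP_meas.mul_const _)

theorem arP_meas (l : Fin 3) : Measurable (arP P ζ l) := by
  unfold arP
  exact Measurable.ite (coneP_meas P) ((rsP_meas _).min (rsP_meas _)) measurable_const

/-- the contact coordinates are bounded on the simplex -/
theorem muP_bd (P : Matrix (Fin 3) (Fin 3) ℝ) : ∃ C, 0 ≤ C ∧ ∀ t ∈ Sim, ∀ k,
    |mu P (vt t) k| ≤ C := by
  have hb : ∀ k, ∃ C, ∀ t ∈ Sim, |mu P (vt t) k| ≤ C := by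
    intro k
    have hc : Continuous fun t => |mu P (vt t) k| :=
      ((continuous_apply k).comp ((Helper75.MEI2.mu_cont P).comp Helper75.MEI2.vt_cont)).abs
    obtain ⟨C, hC⟩ := Sim_compact.bddAbove_image hc.continuousOn
    exact ⟨C, fun t ht => hC ⟨t, ht, rfl⟩⟩
  choose C hC using hb
  refine ⟨|C 0| + |C 1| + |C 2|, by positivity, fun t ht k => (hC k t ht).trans ?_⟩
  have a0 := abs_nonneg (C 0)
  have a1 := abs_nonneg (C 1)
  have a2 := abs_nonneg (C 2)
  have hk := le_abs_self (C k)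
  fin_cases k
  · simp only [Fin.zero_eta] at *; linarith
  · simp only [Fin.mk_one] at *; linarith
  · simp only [Fin.reduceFinMk] at *; linarith

theorem alP_int (hζ : ∀ k, 0 < ζ k) : IntegrableOn (fun t => alP P ζ t / mm t ^ 2) Sim := by
  obtain ⟨C, hC0, hC⟩ := muP_bd P
  refine intOn (C := C / ζ 0) alP_meas fun t ht => ?_
  rw [abs_of_nonneg (alP_nonneg hζ t)]
  by_cases h : ∀ k, 0 ≤ mu P (vt t) k
  · rw [le_div_iff₀ (hζ 0)]
    exact (alP_zeta hζ h 0).trans ((le_abs_self _).trans (hC t ht 0))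
  · push Not at h
    rw [alP_zero h]
    exact div_nonneg hC0 (hζ 0).le

theorem arP_int (hζ : ∀ k, 0 < ζ k) (l : Fin 3) :
    IntegrableOn (fun t => arP P ζ l t / mm t ^ 2) Sim := by
  obtain ⟨C, hC0, hC⟩ := muP_bd P
  refine intOn (C := C) (arP_meas l) fun t ht => ?_
  rw [abs_of_nonneg (arP_nonneg hζ l t)]
  unfold arP
  split_ifs with h
  · refine (min_le_left _ _).trans ?_
    have h3 := mul_nonneg (alP_nonneg (P := P) hζ t) (hζ (l + 1)).le
    have h4 := (le_abs_self _).trans (hC t ht (l + 1))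
    unfold rsP
    linarith
  · exact hC0

/-! ### the mass of the arcs -/

/-- contact coordinates of the nodes of the chamber -/
def TT (ζ : Fin 3 → ℝ) (l : Fin 3) : Matrix (Fin 3) (Fin 3) ℝ :=
  fun i k => if k = l then ζ i else if i = k then 1 else 0

theorem TT_det (ζ : Fin 3 → ℝ) (l : Fin 3) : (TT ζ l).det = ζ l := by
  fin_cases l <;> simp [Matrix.det_fin_three, TT]

theorem TT_mv (ζ x : Fin 3 → ℝ) (l i : Fin 3) :
    (TT ζ l *ᵥ x) i = (if i = l then 0 else x i) + ζ i * x l := by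
  fin_cases l <;> fin_cases i <;>
    simp [Matrix.mulVec, dotProduct, Fin.sum_univ_three, TT] <;> ring

theorem sum2 (l : Fin 3) : (2 : ℝ) = (if (0 : Fin 3) = l then 0 else 1) +
    (if (1 : Fin 3) = l then 0 else 1) + (if (2 : Fin 3) = l then 0 else 1) := by
  fin_cases l
  · simp
    norm_num
  · simp
    norm_num
  · simp
    norm_num

/-- the value of the mean of the quadratic form over the arc tent of the chamber -/
noncomputable def cP (P : Matrix (Fin 3) (Fin 3) ℝ) (ζ : Fin 3 → ℝ) (l : Fin 3) : ℝ :=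
  Qf (P *ᵥ ζ) / 12 + (nn P (l + 1) + nn P (l + 2)) / 8
    - (Qf (fun i => (P *ᵥ ζ) i - P i (l + 1)) + Qf (fun i => (P *ᵥ ζ) i - P i (l + 2))) / 40
    - dd P (l + 1) (l + 2) / 24

theorem PTT_col (l k i : Fin 3) : (P * TT ζ l) i k = if k = l then (P *ᵥ ζ) i else P i k := by
  have h : (P * TT ζ l) i k = P i 0 * TT ζ l 0 k + P i 1 * TT ζ l 1 k + P i 2 * TT ζ l 2 k := by
    rw [Matrix.mul_apply, Fin.sum_univ_three]
  have h2 : (P *ᵥ ζ) i = P i 0 * ζ 0 + P i 1 * ζ 1 + P i 2 * ζ 2 := by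
    simp only [Matrix.mulVec, dotProduct, Fin.sum_univ_three]
  rw [h, h2]
  unfold TT
  by_cases hk : k = l
  · simp only [hk, if_true]
  · simp only [hk, if_false]
    fin_cases k <;> simp

theorem cc_TT (l : Fin 3) : cc (P * TT ζ l) ((if (0 : Fin 3) = l then 0 else 1) / 2)
    ((if (1 : Fin 3) = l then 0 else 1) / 2) ((if (2 : Fin 3) = l then 0 else 1) / 2)
      = cP P ζ l := by
  have hn : ∀ k, nn (P * TT ζ l) k = if k = l then Qf (P *ᵥ ζ) else nn P k := by
    intro k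
    have : Helper75.MEI2.col (P * TT ζ l) k = if k = l then P *ᵥ ζ else Helper75.MEI2.col P k := by
      funext i
      show (P * TT ζ l) i k = _
      rw [PTT_col]
      by_cases hk : k = l
      · simp [hk]
      · simp [hk, Helper75.MEI2.col]
    unfold nn
    rw [this]
    split_ifs <;> rfl
  have hdd : ∀ j k, dd (P * TT ζ l) j k =
      Qf (fun i => (if j = l then (P *ᵥ ζ) i else P i j) - (if k = l then (P *ᵥ ζ) i else P i k)) := by
    intro j k
    unfold dd
    congr 1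
    funext i
    rw [PTT_col, PTT_col]
  unfold cc cP
  rw [hn, hn, hn, hdd, hdd, hdd]
  fin_cases l <;> simp [nn, dd, Qf] <;> ring

section
variable (hP : ∀ i j, 0 ≤ P i j) (hd : 0 < P.det)
include hP hd

omit hP in
/-- the chamber in its own coordinates -/
theorem chamberP (hζ : ∀ k, 0 < ζ k) (l : Fin 3) {t : ℝ × ℝ} (ht : t ∈ TC (P * TT ζ l)) :
    t ∈ Sim ∧ arP P ζ l t = min (mu (P * TT ζ l) (vt t) (l + 1))
      (mu (P * TT ζ l) (vt t) (l + 2)) := by
  have hdet : 0 < (P * TT ζ l).det := by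
    rw [Matrix.det_mul, TT_det]
    exact mul_pos hd (hζ l)
  obtain ⟨h1, h2⟩ := ht
  have hS : t ∈ Sim := Helper75.MEI2.vt_nn.1 h1
  set x : Fin 3 → ℝ := mu (P * TT ζ l) (vt t) with hx
  have e1 : (P * TT ζ l) *ᵥ x = vt t := Helper75.MEI2.mul_mu hdet (vt t)
  rw [← Matrix.mulVec_mulVec] at e1
  have e2 : mu P (vt t) = TT ζ l *ᵥ x := by
    rw [← e1]
    exact Helper75.MEI2.mu_mul hd _
  have e3 : ∀ k, mu P (vt t) k = (if k = l then 0 else x k) + ζ k * x l := by
    intro k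
    rw [← TT_mv, ← e2]
  have hx0 : ∀ k, 0 ≤ (if k = l then 0 else x k) := by
    intro k
    split_ifs
    · exact le_rfl
    · exact h2 k
  have hall : ∀ k, 0 ≤ mu P (vt t) k := by
    intro k
    have := e3 k
    have h3 := hx0 k
    have h4 := mul_nonneg (hζ k).le (h2 l)
    linarith
  have hq : ∀ k, x l ≤ mu P (vt t) k / ζ k := by
    intro k
    rw [le_div_iff₀ (hζ k), e3 k]
    have h3 := hx0 k
    linarith
  have hl : mu P (vt t) l / ζ l = x l := by
    rw [e3 l, if_pos rfl, zero_add, mul_div_cancel_left₀ _ (hζ l).ne']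
  have hal : alP P ζ t = x l := by
    apply le_antisymm
    · rw [← hl]
      have := alP_zeta (P := P) hζ hall l
      exact (le_div_iff₀ (hζ l)).2 this
    · unfold alP
      rw [if_pos hall]
      exact le_min (hq 0) (le_min (hq 1) (hq 2))
  have hrs : ∀ k, k ≠ l → rsP P ζ t k = x k := by
    intro k hk
    unfold rsP
    rw [hal, e3 k, if_neg hk]
    ring
  refine ⟨hS, ?_⟩
  unfold arP
  rw [if_pos hall, hrs (l + 1) (by fin_cases l <;> decide), hrs (l + 2) (by fin_cases l <;> decide)]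

/-- **mass of an arc load, exact closed form of helper75's cone bound** -/
theorem arcP_mass (hζ : ∀ k, 0 < ζ k) (l : Fin 3) :
    1 / √2 * (ζ l * P.det / (108 * cP P ζ l ^ 2)) ≤ Pool.Agent.Helper55.Mass.Id (arP P ζ l) := by
  set M' : Matrix (Fin 3) (Fin 3) ℝ := P * TT ζ l with hM'
  have hdet : M'.det = P.det * ζ l := by
    rw [hM', Matrix.det_mul, TT_det]
  have hdet0 : 0 < M'.det := by
    rw [hdet]
    exact mul_pos hd (hζ l)
  have hT0 : ∀ i j, 0 ≤ TT ζ l i j := by
    intro i j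
    unfold TT
    split_ifs
    · exact (hζ i).le
    · exact zero_le_one
    · exact le_rfl
  have hM0 : ∀ i j, 0 ≤ M' i j := by
    intro i j
    rw [hM', Matrix.mul_apply]
    exact Finset.sum_nonneg fun k _ => mul_nonneg (hP i k) (hT0 k j)
  have h1 := Helper75.MEI2.tentC_lim hM0 hdet0 (ζ := fun k => if k = l then 0 else 1)
    (fun k => by split_ifs <;> norm_num) (Z := 2) (sum2 l) (by norm_num)
    (f := fun v => min (v (l + 1)) (v (l + 2))) (by fun_prop) (by
      intro ε hε v hv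
      have key : ∀ k, k ≠ l → min (v 0 / ((if (0 : Fin 3) = l then 0 else 1) + ε))
          (min (v 1 / ((if (1 : Fin 3) = l then 0 else 1) + ε))
            (v 2 / ((if (2 : Fin 3) = l then 0 else 1) + ε))) ≤ v k := by
        intro k hk
        have h2 : min (v 0 / ((if (0 : Fin 3) = l then 0 else 1) + ε))
          (min (v 1 / ((if (1 : Fin 3) = l then 0 else 1) + ε))
            (v 2 / ((if (2 : Fin 3) = l then 0 else 1) + ε))) ≤
            v k / ((if k = l then 0 else 1) + ε) := by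
          fin_cases k
          · exact min_le_left _ _
          · exact (min_le_right _ _).trans (min_le_left _ _)
          · exact (min_le_right _ _).trans (min_le_right _ _)
        refine h2.trans ?_
        rw [if_neg hk]
        exact div_le_self (hv k) (by linarith)
      exact le_min (key _ (by fin_cases l <;> decide)) (key _ (by fin_cases l <;> decide)))
  rw [cc_TT] at h1
  have hsub : TC M' ⊆ Sim := fun t ht => (chamberP hd hζ l ht).1
  have h2 : ∫ t in TC M', min (mu M' (vt t) (l + 1)) (mu M' (vt t) (l + 2)) / Qf (vt t) ^ 2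
      ≤ ∫ t in Sim, arP P ζ l t / mm t ^ 2 := by
    have eQ : ∀ t : ℝ × ℝ, Qf (vt t) = mm t := by
      intro t
      simp only [Qf, vt, mm, e2, t3, Matrix.cons_val_zero, Matrix.cons_val_one, Matrix.cons_val]
      ring
    have e : ∫ t in TC M', min (mu M' (vt t) (l + 1)) (mu M' (vt t) (l + 2)) / Qf (vt t) ^ 2 =
        ∫ t in TC M', arP P ζ l t / mm t ^ 2 := by
      refine setIntegral_congr_fun (Helper75.MEI2.TC_meas _) fun t ht => ?_
      show min (mu M' (vt t) (l + 1)) (mu M' (vt t) (l + 2)) / Qf (vt t) ^ 2 =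
        arP P ζ l t / mm t ^ 2
      rw [(chamberP hd hζ l ht).2, ← eQ]
    rw [e]
    apply setIntegral_mono_set (arP_int hζ l)
    · filter_upwards with t
      exact div_nonneg (arP_nonneg hζ l t) (by positivity)
    · exact hsub.eventuallyLE
  unfold Pool.Agent.Helper55.Mass.Id
  refine mul_le_mul_of_nonneg_left ?_ (by positivity)
  refine le_trans (le_of_eq ?_) (h1.trans h2)
  rw [hdet]
  have e108 : (54 : ℝ) * 2 * cP P ζ l ^ 2 = 108 * cP P ζ l ^ 2 := by ring
  rw [e108, mul_comm (ζ l)]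

/-- the mean of the quadratic form is positive -/
theorem cP_pos (hζ : ∀ k, 0 < ζ k) (l : Fin 3) : 0 < cP P ζ l := by
  have hz : ∀ i, 0 ≤ (P *ᵥ ζ) i := fun i => by
    simp only [Matrix.mulVec, dotProduct]
    exact Finset.sum_nonneg fun j _ => mul_nonneg (hP i j) (hζ j).le
  have key : ∀ v w : Fin 3 → ℝ, (∀ i, 0 ≤ v i) → (∀ i, 0 ≤ w i) →
      Qf (fun i => v i - w i) ≤ Qf v + Qf w := by
    intro v w hv hw
    have v0 := hv 0
    have v1 := hv 1
    have v2 := hv 2
    have w0 := hw 0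
    have w1 := hw 1
    have w2 := hw 2
    unfold Qf
    nlinarith [mul_nonneg v0 w0, mul_nonneg v0 w1, mul_nonneg v0 w2, mul_nonneg v1 w0,
      mul_nonneg v1 w1, mul_nonneg v1 w2, mul_nonneg v2 w0, mul_nonneg v2 w1, mul_nonneg v2 w2]
  have k1 := key (P *ᵥ ζ) (fun i => P i (l + 1)) hz (fun i => hP i _)
  have k2 := key (P *ᵥ ζ) (fun i => P i (l + 2)) hz (fun i => hP i _)
  have k3 := key (fun i => P i (l + 1)) (fun i => P i (l + 2)) (fun i => hP i _) (fun i => hP i _)
  have n0 := Helper75.MEI2.Qf_nonneg (P *ᵥ ζ)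
  have hn : ∀ k, 0 < nn P k := by
    intro k
    have hne : Helper75.MEI2.col P k ≠ 0 := by
      intro h0
      have h1 : P.det = 0 := by
        apply Matrix.det_eq_zero_of_column_eq_zero k
        intro i
        exact congrFun h0 i
      exact absurd h1 hd.ne'
    exact Helper75.MEI2.Qf_pos_of (fun i => hP i k) hne
  have g1 := hn (l + 1)
  have g2 := hn (l + 2)
  have e1 : nn P (l + 1) = Qf (fun i => P i (l + 1)) := rfl
  have e2 : nn P (l + 2) = Qf (fun i => P i (l + 2)) := rfl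
  have e3 : dd P (l + 1) (l + 2) = Qf (fun i => P i (l + 1) - P i (l + 2)) := rfl
  unfold cP
  rw [e3]
  rw [e1] at g1 ⊢
  rw [e2] at g2 ⊢
  linarith

/-- the mass of an arc load with an upper bound of the mean -/
theorem arcP_mass_le (hζ : ∀ k, 0 < ζ k) (l : Fin 3) {C : ℝ} (hC : cP P ζ l ≤ C) :
    1 / √2 * (ζ l * P.det / (108 * C ^ 2)) ≤ Pool.Agent.Helper55.Mass.Id (arP P ζ l) := by
  have h0 := cP_pos hP hd hζ l
  refine le_trans ?_ (arcP_mass hP hd hζ l)
  refine mul_le_mul_of_nonneg_left ?_ (by positivity)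
  apply div_le_div_of_nonneg_left (mul_pos (hζ l) hd).le (by positivity)
  have := pow_le_pow_left₀ h0.le hC 2
  linarith

end

/-- closed bound of the mean: the distances to the apex are not needed -/
theorem cP_le (l : Fin 3) {Q n d : ℝ} (hQ : Qf (P *ᵥ ζ) ≤ Q)
    (hn : nn P (l + 1) + nn P (l + 2) ≤ n) (hdd : d ≤ dd P (l + 1) (l + 2)) :
    cP P ζ l ≤ Q / 12 + n / 8 - 13 / 240 * d := by
  have key : ∀ v p q : Fin 3 → ℝ, 1 / 2 * Qf (fun i => p i - q i) ≤
      Qf (fun i => v i - p i) + Qf (fun i => v i - q i) := by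
    intro v p q
    have h := Helper75.MEI2.Qf_nonneg (fun i => (v i - p i) + (v i - q i))
    unfold Qf at *
    linarith
  have k1 := key (P *ᵥ ζ) (fun i => P i (l + 1)) (fun i => P i (l + 2))
  have e3 : dd P (l + 1) (l + 2) = Qf (fun i => P i (l + 1) - P i (l + 2)) := rfl
  rw [← e3] at k1
  unfold cP
  linarith

end Pool.Agent.Helper31.ARC
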